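import Pool.Agent.MP_a88b1d_nt.H42.Spec

/-! The pairing of closed walks in the quotient graph of a free action. -/

namespace Pool.Agent.MP_a88b1d_nt.H97

open Pool.Agent.MP_a88b1d_nt.H42

variable {V : Type} [Monoid V] {d : V → V → ℕ} {s : Fin 3 → V} {G : Type} [Group G]
  {ρ : G →* V} {N : ℕ} {g : ℕ → V} {tgt rev : ℕ → ℕ} {γ : ℕ → G}

theorem tr0 (H : IsTree d s) {x y z : V} (h : d x y = 0) (h' : d y z = 0) : d x z = 0 := by
  have := H.tri x y z
  omega

theorem sy0 (H : IsTree d s) {x y : V} (h : d x y = 0) : d y x = 0 := (H.comm y x).trans h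

theorem dart_ext {e e' : ℕ} (h : e / 3 = e' / 3) (h' : kk e = kk e') : e = e' := by
  have : e % 3 = e' % 3 := congrArg Fin.val h'
  omega

theorem stp (H : IsTree d s) (Q : QGraph d s ρ N g tgt rev γ) (a : G) {e : ℕ} (he : e < 3 * N) :
    d (ρ a * g (e / 3) * s (kk e)) (ρ (a * γ e) * g (tgt e)) = 0 := by
  rw [map_mul, mul_assoc, mul_assoc, H.inv, Q.step e he]

theorem back (H : IsTree d s) (Q : QGraph d s ρ N g tgt rev γ) (a : G) {e : ℕ} (he : e < 3 * N) :
    d (ρ (a * γ e) * g (tgt e) * s (kk (rev e))) (ρ a * g (e / 3)) = 0 := by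
  have := stp H Q (a * γ e) (Q.rev_lt e he)
  rwa [Q.src_rev e he, mul_assoc a, Q.gam_rev e he, mul_one, ← Q.src_rev _ (Q.rev_lt e he),
    Q.rev_rev e he] at this

theorem free (H : IsTree d s) (T : TreeAPI d s) (Q : QGraph d s ρ N g tgt rev γ) (n : ℕ) :
    ∀ (a a' : G) (j j' : ℕ), j < N → j' < N → d (ρ a * g j) 1 = n →
      d (ρ a * g j) (ρ a' * g j') = 0 → a = a' ∧ j = j' := by
  induction n with
  | zero =>
    intro a a' j j' hj hj' h0 h
    obtain ⟨rfl, rfl⟩ := Q.base a j hj (sy0 H h0)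
    obtain ⟨rfl, rfl⟩ := Q.base a' j' hj' (tr0 H (sy0 H h0) h)
    exact ⟨rfl, rfl⟩
  | succ n ih =>
    intro a a' j j' hj hj' h0 h
    obtain ⟨k, hk, -⟩ := H.uniq (ρ a * g j) 1 (by omega)
    obtain ⟨k', hk'⟩ := T.nbr (ρ a' * g j') (ρ a * g j * s k) ((T.congr _ _ _ h).symm.trans (T.adjx _ k))
    have dart : ∀ (j : ℕ) (k : Fin 3), j < N → ∃ e, e < 3 * N ∧ e / 3 = j ∧ kk e = k :=
      fun j k hj => ⟨3 * j + k, by omega, by omega, Fin.ext (by simp only [kk]; omega)⟩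
    obtain ⟨e, he, rfl, rfl⟩ := dart j k hj
    obtain ⟨e', he', rfl, rfl⟩ := dart j' k' hj'
    have s1 := stp H Q a he
    have s2 := stp H Q a' he'
    obtain ⟨e1, e2⟩ := ih _ _ _ _ (Q.tgt_lt e he) (Q.tgt_lt e' he')
      ((T.congr _ _ _ s1).symm.trans (by omega)) (tr0 H (sy0 H s1) (tr0 H (sy0 H hk') s2))
    have b1 := back H Q a he
    have b2 := back H Q a' he'
    rw [← e1, ← e2] at b2
    have e3 : rev e = rev e' := dart_ext (by rw [Q.src_rev e he, Q.src_rev e' he', e2])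
      (T.nbd _ _ _ (tr0 H b1 (tr0 H h (sy0 H b2))))
    obtain rfl : e = e' := by rw [← Q.rev_rev e he, e3, Q.rev_rev e' he']
    exact ⟨mul_right_cancel e1, rfl⟩

omit [Group G] in
theorem fs (b : G) (p : Prop) [Decidable p] [DecidableEq G] :
    ∑ᶠ a, (if a = b ∧ p then (2 : ℤ) else 0) = if p then 2 else 0 := by
  rw [finsum_eq_single _ b fun a ha => if_neg fun h => ha h.1]
  simp

omit [Group G] in
theorem ffin (b : G) (p : Prop) [Decidable p] [DecidableEq G] :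
    (Function.support fun a => if a = b ∧ p then (2 : ℤ) else 0).Finite :=
  (Set.finite_singleton b).subset fun a ha => by
    by_contra h
    exact ha (if_neg fun h' => h h'.1)

theorem dart (H : IsTree d s) (T : TreeAPI d s) (Q : QGraph d s ρ N g tgt rev γ) {e e' : ℕ}
    (he : e < 3 * N) (he' : e' < 3 * N) :
    Psi d ρ (g (e / 3)) (g (e / 3) * s (kk e)) (g (e' / 3)) (g (e' / 3) * s (kk e')) =
      (if e = e' then (2 : ℤ) else 0) - (if e = rev e' then 2 else 0) := by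
  classical
  have fr : ∀ (a : G) (j j' : ℕ), j < N → j' < N → d (g j) (ρ a * g j') = 0 → 1 = a ∧ j = j' :=
    fun a j j' hj hj' h => free H T Q _ 1 a j j' hj hj' rfl (by rwa [map_one, one_mul])
  have c1 : ∀ a : G, (d (g (e / 3)) (ρ a * g (e' / 3)) = 0 ∧
      d (g (e / 3) * s (kk e)) (ρ a * (g (e' / 3) * s (kk e'))) = 0) ↔ a = 1 ∧ e = e' := by
    refine fun a => ⟨fun ⟨h1, h2⟩ => ?_, fun ⟨h1, h2⟩ => ?_⟩
    · obtain ⟨rfl, e1⟩ := fr a _ _ (by omega) (by omega) h1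
      rw [map_one, one_mul, ← e1] at h2
      exact ⟨rfl, dart_ext e1 (T.nbd _ _ _ h2)⟩
    · subst h1 h2
      simp [H.self]
  have c2 : ∀ a : G, (d (g (e / 3)) (ρ a * (g (e' / 3) * s (kk e'))) = 0 ∧
      d (g (e / 3) * s (kk e)) (ρ a * g (e' / 3)) = 0) ↔ a = (γ e')⁻¹ ∧ e = rev e' := by
    intro a
    have s1 := stp H Q a he'
    have b1 := back H Q a he'
    rw [mul_assoc] at s1
    refine ⟨fun ⟨h1, h2⟩ => ?_, fun ⟨h1, h2⟩ => ?_⟩
    · obtain ⟨e0, e1⟩ := fr _ _ _ (by omega) (Q.tgt_lt e' he') (tr0 H h1 s1)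
      rw [← e0, map_one, one_mul, ← e1] at b1
      exact ⟨eq_inv_of_mul_eq_one_left e0.symm, dart_ext (e1.trans (Q.src_rev e' he').symm)
        (T.nbd _ _ _ (tr0 H h2 (sy0 H b1)))⟩
    · subst h1 h2
      rw [inv_mul_cancel, map_one, one_mul, ← Q.src_rev e' he'] at s1 b1
      exact ⟨sy0 H s1, b1⟩
  rw [← fs (1 : G) (e = e'), ← fs (γ e')⁻¹ (e = rev e'), ← finsum_sub_distrib (ffin _ _) (ffin _ _)]
  refine finsum_congr fun a => ?_
  rw [T.two _ _ _ _ (T.adjx _ _) (by rw [H.inv, T.adjx])]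
  simp only [c1, c2]

theorem walk (H : IsTree d s) (P : PsiAPI d s ρ) (Q : QGraph d s ρ N g tgt rev γ) (u u' : V)
    (l : List ℕ) : ∀ j j', Walk N tgt j l j' → (∀ e ∈ l, e < 3 * N) ∧
      Psi d ρ (g j) (ρ (l.map γ).prod * g j') u u' =
        (l.map fun e => Psi d ρ (g (e / 3)) (g (e / 3) * s (kk e)) u u').sum := by
  induction l with
  | nil =>
    rintro j j' (rfl : j = j')
    simp [P.self]
  | cons e l ih =>
    rintro j j' ⟨he, rfl, hw⟩
    obtain ⟨h1, h2⟩ := ih _ _ hw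
    refine ⟨by simpa [he] using h1, ?_⟩
    rw [List.map_cons, List.prod_cons, List.map_cons, List.sum_cons, ← h2, map_mul, mul_assoc,
      ← P.coc _ (ρ (γ e) * g (tgt e)), P.inv,
      P.congr _ _ _ _ _ _ _ _ (H.self _) (Q.step e he) (H.self u) (H.self u')]

theorem dcomb (h : TA) (h' : PA) : DCOMB := by
  intro V _ d s G _ ρ N g tgt rev γ H hp Q l l' hl hl'
  have T := h V d s H
  have P := h' V d s G ρ H hp
  have w := fun u u' => walk H P Q u u' l 0 0 hl
  have w' := fun u u' => walk H P Q u u' l' 0 0 hl'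
  simp only [Q.g0, mul_one] at w w'
  rw [(w _ _).2, gram]
  refine congrArg List.sum (List.map_congr_left fun e he => ?_)
  rw [P.symm, (w' _ _).2]
  refine congrArg List.sum (List.map_congr_left fun e' he' => ?_)
  rw [P.symm, dart H T Q ((w 1 1).1 e he) ((w' 1 1).1 e' he')]

end Pool.Agent.MP_a88b1d_nt.H97
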